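import Pool.Agent.H.MP_8df5c2_pr.A

namespace Pool.Agent.Results.MP_fbfbfd_pr.Scales

open MeasureTheory Filter Topology
open scoped ENNReal

def box (d k : ℕ) : Set (Fin d → ℤ) := {x | ∀ i, -2 ^ k ≤ x i ∧ x i < 2 ^ k}

def shell (d : ℕ) : ℕ → Set (Fin d → ℤ)
  | 0 => box d 0
  | k + 1 => box d (k + 1) \ box d k

def dyadic {d : ℕ} (q : ℕ × (Fin d → ℤ)) : Set (Fin d → ℤ) :=
  {x | ∀ i, q.2 i * 2 ^ q.1 ≤ x i ∧ x i < (q.2 i + 1) * 2 ^ q.1}

noncomputable def content {d : ℕ} (γ : ℝ) (A : Set (Fin d → ℤ)) (k : ℕ) : ℝ≥0∞ :=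
  ⨅ (s : Finset (ℕ × (Fin d → ℤ))) (_ : A ∩ shell d k ⊆ ⋃ q ∈ s, dyadic q),
    ∑ q ∈ s, ENNReal.ofReal (2 ^ (γ * ((q.1 : ℝ) - k - 1)))

noncomputable def lowerH {d : ℕ} (A : Set (Fin d → ℤ)) : EReal :=
  ⨅ (γ : ℝ) (_ : 0 < γ) (_ : Tendsto (content γ A) atTop (𝓝 0)), (γ : EReal)

noncomputable def U {d : ℕ} (ν : Measure (Fin d → ℤ)) (A : Set (Fin d → ℤ)) : ℝ≥0∞ :=
  ∑' n : ℕ, Measure.infinitePi (fun _ : ℕ => ν) {ω | ∑ i ∈ Finset.range n, ω i ∈ A}

noncomputable def lam {d : ℕ} (ν : Measure (Fin d → ℤ)) : EReal :=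
  liminf (fun n : ℕ => ((Real.logb 2 (U ν (box d n)).toReal / n : ℝ) : EReal)) atTop

open Pool.Agent.H.MP_8df5c2_pr Finset

def b : ℕ → ℕ
  | 0 => 0
  | j + 1 => 8 * (b j + 1) + j + 3

lemma b_ge (j i : ℕ) : b j + i ≤ b (j + i) := by
  induction i with
  | zero => rfl
  | succ i ih => rw [← add_assoc, ← add_assoc, b]; omega

def L (j : ℕ) : Fin 1 → ℤ := fun _ => 2 ^ (4 * (b j + 1))

lemma tail (j : ℕ) : ∑' i, (2⁻¹ : ℝ≥0∞) ^ b (j + i) ≤ 2⁻¹ ^ b j * 2 := by
  refine (ENNReal.tsum_le_tsum (g := fun i => 2⁻¹ ^ b j * 2⁻¹ ^ i) fun i => ?_).trans_eq ?_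
  · rw [← pow_add]; exact pow_le_pow_right_of_le_one' (by simp) (b_ge j i)
  · rw [ENNReal.tsum_mul_left, ENNReal.tsum_geometric_two]

lemma ex : ∃ ν : Measure (Fin 1 → ℤ), IsProbabilityMeasure ν ∧ ν {x | ¬ 0 < x 0} = 0 ∧
    ∀ j, 2⁻¹ ^ (b j + 1) ≤ ν {L j} ∧ ν {x | L j 0 < x 0} ≤ 2⁻¹ ^ b (j + 1) * 2 := by
  have z1 : 1 ≤ ∑' i, (2⁻¹ : ℝ≥0∞) ^ b i := le_trans (by simp [b]) (ENNReal.le_tsum 0)
  have z2 : ∑' i, (2⁻¹ : ℝ≥0∞) ^ b i ≤ 2 := by simpa [b] using tail 0
  let p := PMF.normalize _ (zero_lt_one.trans_le z1).ne' (ne_top_of_le_ne_top (by simp) z2)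
  have m : Measurable L := .of_discrete
  refine ⟨p.toMeasure.map L, Measure.isProbabilityMeasure_map m.aemeasurable, ?_, fun j => ⟨?_, ?_⟩⟩
  · rw [Measure.map_apply m .of_discrete, show L ⁻¹' {x | ¬ 0 < x 0} = ∅ by ext; simp [L], measure_empty]
  · rw [Measure.map_apply m .of_discrete]
    refine le_trans ?_ (measure_mono (s := {j}) (by simp))
    rw [PMF.toMeasure_apply_singleton _ _ .of_discrete, PMF.normalize_apply, pow_succ]
    exact mul_le_mul_right (ENNReal.inv_le_inv.mpr z2) _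
  · rw [Measure.map_apply m .of_discrete]
    refine (measure_mono (t := ⋃ i, {j + 1 + i}) fun i hi => ?_).trans
      ((measure_iUnion_le _).trans ((ENNReal.tsum_le_tsum fun i => ?_).trans (tail (j + 1))))
    · have h := (pow_lt_pow_iff_right₀ (one_lt_two (α := ℤ))).mp hi
      have : j < i := by
        by_contra! k
        have := b_ge i (j - i)
        rw [Nat.add_sub_cancel' k] at this; omega
      exact Set.mem_iUnion.mpr ⟨i - (j + 1), by simp; omega⟩
    · rw [PMF.toMeasure_apply_singleton _ _ .of_discrete, PMF.normalize_apply]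
      exact mul_le_of_le_one_right' (ENNReal.inv_le_one.mpr z1)

lemma low {ω : ℕ → Fin 1 → ℤ} (h0 : ∀ i, 0 < ω i 0) {a : ℕ} (ha : 2 ≤ a)
    (h : ∀ i < 2 ^ (2 * a), ω i 0 ≤ 2 ^ a) {γ : ℝ} (g0 : 0 < γ) (g1 : γ ≤ 1 / 2) :
    e (-4) ≤ content γ (Set.range fun n => X n ω) (2 * a) := by
  obtain ⟨k, hk⟩ : ∃ k, 2 * a = k + 1 := ⟨2 * a - 1, by omega⟩
  refine le_iInf₂ fun s hs => ?_
  have up : ∀ n : ℕ, (n : ℤ) ≤ X n ω 0 := fun n => by
    simpa [X, Finset.sum_apply] using card_nsmul_le_sum (range n) (fun i => ω i 0) 1 fun i _ => h0 i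
  let I : Finset ℤ := Ico (2 ^ k) (2 ^ (k + 1) - 2 ^ a)
  have c : I ⊆ s.biUnion fun q => I ∩ Ico (q.2 0 * 2 ^ q.1 - 2 ^ a) ((q.2 0 + 1) * 2 ^ q.1) :=
    fun y hy => by
      obtain ⟨y1, y2⟩ := mem_Ico.mp hy
      have p : (0 : ℤ) < 2 ^ k := by positivity
      have p' : (0 : ℤ) < 2 ^ a := by positivity
      have ex : ∃ n, y ≤ X n ω 0 := ⟨y.toNat, (Int.self_le_toNat y).trans (up _)⟩
      classical
      have f := Nat.find_spec ex
      obtain ⟨t, ht⟩ : ∃ t, Nat.find ex = t + 1 := Nat.exists_eq_succ_of_ne_zero fun e => by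
        rw [e] at f; simp [X] at f; omega
      have f' := not_le.mp (Nat.find_min ex (show t < _ by omega))
      have : X (t + 1) ω 0 ≤ X t ω 0 + 2 ^ a := by
        simp only [X, sum_range_succ, Pi.add_apply, add_le_add_iff_left]
        refine h t (hk ▸ ?_)
        have := up t
        zify; omega
      rw [ht] at f
      obtain ⟨q, hq, h⟩ := Set.mem_iUnion₂.mp (hs (a := X (t + 1) ω) ⟨⟨_, rfl⟩, hk ▸
        ⟨fun i => by rw [Subsingleton.elim i 0]; omega, fun h => by have := h 0; omega⟩⟩)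
      have := h 0
      exact mem_biUnion.mpr ⟨q, hq, mem_inter.mpr ⟨hy, mem_Ico.mpr (by omega)⟩⟩
  obtain ⟨j, rfl⟩ : ∃ j, k = j + 1 := ⟨k - 1, by omega⟩
  have aj : (2 : ℤ) ^ a ≤ 2 ^ j := pow_le_pow_right₀ one_le_two (by omega)
  have i1 : 2 ^ j ≤ #I := by
    simp only [I, Int.card_Ico, pow_succ]
    have p' : (0 : ℤ) < 2 ^ j := by positivity
    rw [Int.le_toNat (by omega)]
    push_cast; omega
  have i2 : #I ≤ 2 ^ (j + 2) := by
    simp only [I, Int.card_Ico, Int.toNat_le, pow_succ]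
    push_cast
    have p' : (0 : ℤ) < 2 ^ a := by positivity
    omega
  have t : e j ≤ ∑ q ∈ s, e (j + 4) * .ofReal (2 ^ (γ * ((q.1 : ℝ) - (2 * a : ℕ) - 1))) := by
    rw [e_nat]
    refine (Nat.cast_le.mpr (i1.trans ((card_le_card c).trans card_biUnion_le))).trans ?_
    rw [Nat.cast_sum]
    refine sum_le_sum fun q _ => ?_
    rw [← e_eq, ← e_add, hk]
    have a' : 2 * (a : ℝ) = j + 2 := by exact_mod_cast hk
    rcases le_or_gt (j + 3) q.1 with l | l
    · refine (Nat.cast_le.mpr ((card_le_card inter_subset_left).trans i2)).trans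
        ((e_nat _).symm.trans_le (e_mono ?_))
      have : (j : ℝ) + 3 ≤ q.1 := by exact_mod_cast l
      push_cast; nlinarith
    · have : #(Ico (q.2 0 * 2 ^ q.1 - 2 ^ a) ((q.2 0 + 1) * 2 ^ q.1)) ≤ 2 ^ (max q.1 a + 1) := by
        have := pow_le_pow_right₀ (one_le_two (α := ℤ)) (le_max_left q.1 a)
        have := pow_le_pow_right₀ (one_le_two (α := ℤ)) (le_max_right q.1 a)
        simp only [Int.card_Ico, Int.toNat_le, pow_succ, add_mul]
        push_cast; omega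
      refine (Nat.cast_le.mpr ((card_le_card inter_subset_right).trans this)).trans
        ((e_nat _).symm.trans_le (e_mono ?_))
      have : (q.1 : ℝ) ≤ j + 3 := by exact_mod_cast l.le
      have q0 : (0 : ℝ) ≤ q.1 := by positivity
      push_cast
      rcases le_total (q.1 : ℝ) a with m | m <;> simp only [max_eq_left, max_eq_right, m] <;> nlinarith
  have := mul_le_mul_right t (e (-(j + 4)))
  rwa [← mul_sum, ← mul_assoc, ← e_add, ← e_add, neg_add_cancel, e_zero, one_mul,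
    show -((j : ℝ) + 4) + j = -4 by ring] at this

theorem result : ∃ ν : Measure (Fin 1 → ℤ), IsProbabilityMeasure ν ∧ (∀ x, U ν {x} < ∞) ∧
    (∀ n, U ν (box 1 n) < ∞) ∧ lam ν ≤ (1 / 4 : ℝ) ∧ ∃ E : Set (ℕ → Fin 1 → ℤ), MeasurableSet E ∧
      0 < Measure.infinitePi (fun _ : ℕ => ν) E ∧
      ∀ ω ∈ E, ((1 / 2 : ℝ) : EReal) ≤ lowerH (Set.range fun n => ∑ i ∈ Finset.range n, ω i) := by
  obtain ⟨ν, _, h0, h⟩ := ex
  have ev : ∀ i (s : Set (Fin 1 → ℤ)), P ν ((fun ω => ω i) ⁻¹' s) = ν s := fun i s =>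
    (measurePreserving_eval_infinitePi (fun _ : ℕ => ν) i).measure_preimage
      MeasurableSet.of_discrete.nullMeasurableSet
  have pos : ∀ᵐ ω ∂P ν, ∀ i, 0 < ω i 0 := ae_all_iff.mpr fun i => (ev i _).trans h0
  have u : ∀ j, U ν (box 1 (4 * (b j + 1))) ≤ 2 ^ (b j + 1) := fun j => by
    refine (ENNReal.tsum_le_tsum (g := fun n => (1 - 2⁻¹ ^ (b j + 1)) ^ n) fun n => ?_).trans ?_
    · refine (measure_mono_ae (t := Set.pi (range n : Finset ℕ) fun _ => {L j}ᶜ) ?_).trans ?_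
      · filter_upwards [pos] with ω p hω i hi e
        have := single_le_sum (f := fun i => ω i 0) (fun i _ => (p i).le) hi
        have k := (hω 0).2
        rw [Finset.sum_apply] at k
        rw [show ω i = L j from e] at this
        exact absurd this (not_le.mpr k)
      · rw [Measure.infinitePi_pi _ fun _ _ => .of_discrete, prod_const, card_range,
          prob_compl_eq_one_sub .of_discrete]
        gcongr
        exact (h j).1
    · rw [ENNReal.tsum_geometric, ENNReal.sub_sub_cancel (by simp) (pow_le_one₀ (by simp) (by simp)),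
        ← ENNReal.inv_pow, inv_inv]
  have um : ∀ {A B}, A ⊆ B → U ν A ≤ U ν B := fun h =>
    ENNReal.tsum_le_tsum fun n => measure_mono fun ω k => h k
  have uf : ∀ n, U ν (box 1 n) < ∞ := fun n => (um (B := box 1 _) fun x hx i => by
    have := hx i
    have := pow_le_pow_right₀ (one_le_two (α := ℤ))
      (show n ≤ 4 * (b n + 1) by have := b_ge 0 n; simp at this; omega)
    omega).trans_lt ((u n).trans_lt (by finiteness))
  let B : Set (ℕ → Fin 1 → ℤ) := ⋃ j, ⋃ i ∈ range (2 ^ (2 * (4 * (b j + 1)))),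
    (fun ω => ω i) ⁻¹' {x | L j 0 < x 0}
  have mB : MeasurableSet B := .iUnion fun j => Finset.measurableSet_biUnion _ fun i _ =>
    measurable_pi_apply i .of_discrete
  have pB : P ν B < 1 := by
    refine ((measure_iUnion_le _).trans (ENNReal.tsum_le_tsum (g := fun j => 2⁻¹ ^ 2 * 2⁻¹ ^ j)
      fun j => (measure_biUnion_finset_le _ _).trans ?_)).trans_lt ?_
    · simp only [ev, sum_const, card_range, nsmul_eq_mul]
      refine (mul_le_mul_right (h j).2 _).trans_eq ?_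
      have k : ∀ n : ℕ, (2 : ℝ≥0∞) ^ n * 2⁻¹ ^ n = 1 := fun n => by
        rw [← mul_pow, ENNReal.mul_inv_cancel (by simp) (by simp), one_pow]
      have := k (8 * (b j + 1) + 1)
      calc _ = (2 : ℝ≥0∞) ^ (8 * (b j + 1) + 1) * 2⁻¹ ^ (8 * (b j + 1) + 1) * (2⁻¹ ^ 2 * 2⁻¹ ^ j) := by
            rw [b]; push_cast; ring
        _ = _ := by rw [k, one_mul]
    · rw [ENNReal.tsum_mul_left, ENNReal.tsum_geometric_two, sq, mul_assoc,
        ENNReal.inv_mul_cancel (by simp) (by simp)]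
      simp
  refine ⟨ν, ‹_›, fun x => ?_, uf, ?_, {ω | ∀ i, 0 < ω i 0} \ B, ?_, ?_, fun ω hω => ?_⟩
  · obtain ⟨s, hs⟩ := ex_ball x
    exact (um (B := box 1 s) (Set.singleton_subset_iff.mpr fun i =>
      (abs_lt.mp (mem_ball.mp hs i)).imp_left le_of_lt)).trans_lt (uf s)
  · refine liminf_le_of_frequently_le (frequently_atTop.mpr fun n => ⟨4 * (b n + 1), by
      have := b_ge 0 n; simp at this; omega, EReal.coe_le_coe_iff.mpr ?_⟩)
    rw [div_le_iff₀ (by positivity)]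
    rcases eq_or_lt_of_le (ENNReal.toReal_nonneg (a := U ν (box 1 (4 * (b n + 1))))) with e | e
    · rw [← e, Real.logb_zero]; positivity
    · rw [Real.logb_le_iff_le_rpow one_lt_two e, show (1 / 4 : ℝ) * (4 * (b n + 1) : ℕ) = (b n + 1 : ℕ) by
        push_cast; ring, Real.rpow_natCast]
      simpa using ENNReal.toReal_mono (by finiteness) (u n)
  · exact .diff (measurableSet_setOfPred.mpr (by fun_prop)) mB
  · refine pos_iff_ne_zero.mpr fun z => pB.not_ge ?_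
    rw [← measure_univ (μ := P ν)]
    refine measure_mono_ae ?_
    filter_upwards [pos, measure_eq_zero_iff_ae_notMem.mp z] with ω a c _
    exact by_contra fun f => c ⟨a, f⟩
  · refine le_iInf fun γ => le_iInf fun g0 => le_iInf fun g1 => EReal.coe_le_coe_iff.mpr ?_
    by_contra! g2
    have p : 0 < e (-4) := by rw [e_eq]; exact ENNReal.ofReal_pos.mpr (by positivity)
    obtain ⟨n, hn⟩ := eventually_atTop.mp (g1.eventually_lt_const p)
    refine (hn (2 * (4 * (b n + 1))) (by have := b_ge 0 n; simp at this; omega)).not_ge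
      (low hω.1 (by omega) (fun i hi => not_lt.mp fun f => hω.2 ?_) g0 g2.le)
    exact Set.mem_iUnion.mpr ⟨n, Set.mem_biUnion (mem_coe.mpr (mem_range.mpr hi)) f⟩

end Pool.Agent.Results.MP_fbfbfd_pr.Scales
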